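import Mathlib
import Pool.Agent.AAP.Defs
import Pool.Agent.HTK.Den
import Pool.Agent.HFW.FH

set_option autoImplicit false

/-!
# From a null set of integral vectors to the affine space, ordered by height
-/

namespace Pool.Agent.PSH

open NumberField
open Pool.Agent.AAP (vc)
open Pool.Agent.LIM (Null)

/-- A property of the points of the affine space that fails for few of the integral vectors
`(t 0 : t 1 : ...)` fails for few of the points, ordered by height. -/
theorem aff_den (K : Type) [Field K] [NumberField K] {r : ℕ} (hr : 1 ≤ r) {m R : ℕ}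
    (ω : Module.Basis (Fin m) ℤ (𝓞 K)) (e : Fin R ≃ Fin (r + 1) × Fin m)
    (Good : (Fin r → K) → Prop)
    (hnull : Null {z : Fin R → ℤ | ((vc ω e z 0 : 𝓞 K) : K) = 0 ∨
      ¬ Good fun i => ((vc ω e z i.succ : 𝓞 K) : K) / ((vc ω e z 0 : 𝓞 K) : K)})
    (ε : ℝ) (hε : 0 < ε) :
    ∃ B₀ : ℝ, ∀ B : ℝ, B₀ ≤ B →
      (({s : Fin r → K | Height.mulHeight (Fin.cons 1 s : Fin (r + 1) → K) ≤ B ∧
          ¬ Good s}.ncard : ℕ) : ℝ) ≤
        ε * ({s : Fin r → K | Height.mulHeight (Fin.cons 1 s : Fin (r + 1) → K) ≤ B}.ncard : ℕ) := by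
  refine HFW.aff_of_proj Good ?_ ε hε
  intro ε hε
  refine HTK.den K (r + 1) (by omega) ω e
    (fun t => t 0 = 0 ∨ ¬ Good fun i : Fin r => t i.succ / t 0) ?_ ?_ ε hε
  · rintro c t hc ht
    have h1 : (fun i : Fin r => (c • t) i.succ / (c • t) 0) = fun i : Fin r => t i.succ / t 0 := by
      funext i
      rw [Pi.smul_apply, Pi.smul_apply, smul_eq_mul, smul_eq_mul, mul_div_mul_left _ _ hc]
    rw [h1]
    rcases ht with h | h
    · left
      rw [Pi.smul_apply, h, smul_zero]
    · exact Or.inr h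
  · exact hnull

end Pool.Agent.PSH
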