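import Mathlib
import Pool.Agent.TameArb.Down
import Pool.Agent.AAP.Tfr
import Pool.Agent.NDE.Chv

set_option autoImplicit false

/-!
# Polynomials `P + c`: the points fixed by a suitable Frobenius element escape
-/

namespace Pool.Agent.PSH

open Polynomial NumberField IsDedekindDomain WithZero
open scoped WithZero
open Pool.Agent.TameArb

namespace EscA

/-- from an automorphism that moves the fibres to the density -/
theorem dens_of_auto {K : Type} [Field K] [NumberField K] (φ : K[X]) (hd : 2 ≤ φ.natDegree)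
    (Γ : Finset K) (n : ℕ) {L : Type} [Field L] [NumberField L] [Algebra K L] [IsGalois K L]
    (hsp : ∀ γ ∈ Γ, ((itp φ n).map (algebraMap K L) - C (algebraMap K L γ)).Splits)
    (g : L ≃ₐ[K] L) (hg : ∀ γ ∈ Γ, ∀ x : L, (ph φ)^[n] x = algebraMap K L γ → g x ≠ x) :
    PosDens (GP φ Γ) := by
  classical
  have hfib : ∀ γ : K, ∃ S : Finset L, ∀ x, x ∈ S ↔ (ph φ)^[n] x = algebraMap K L γ := by
    intro γ
    obtain ⟨S, -, hS⟩ := exists_fibre φ hd n (algebraMap K L γ)
    exact ⟨S, hS⟩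
  choose F hF using hfib
  -- the order of `g`
  have hfinG : Finite (L ≃ₐ[K] L) := inferInstance
  obtain ⟨N, hN, hgN⟩ : ∃ N, 0 < N ∧ g ^ N = 1 :=
    ⟨orderOf g, orderOf_pos g, pow_orderOf_eq_one g⟩
  have hdens : PosDens {v : HeightOneSpectrum (𝓞 K) | ∃ w : HeightOneSpectrum (𝓞 L),
      w.under (𝓞 K) = v ∧ ∀ z : L, w.valuation L (g z) = w.valuation L z} :=
    fixed_primes K L g N hN hgN
  -- the bad primes
  set B : Set (HeightOneSpectrum (𝓞 K)) := {v | ¬ Good (v.valuation K) φ} ∪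
    ((⋃ γ ∈ Γ, {v | ¬ v.valuation K γ ≤ 1}) ∪
      (fun w : HeightOneSpectrum (𝓞 L) => w.under (𝓞 K)) ''
        (⋃ γ ∈ Γ, ⋃ x ∈ F γ, {w | w.valuation L (g x - x) < 1})) with hB
  have hBfin : B.Finite := by
    refine (finite_bad hd).union (Set.Finite.union ?_ (Set.Finite.image _ ?_))
    · exact Set.Finite.biUnion (Finset.finite_toSet Γ) fun γ _ => finite_gt γ
    · refine Set.Finite.biUnion (Finset.finite_toSet Γ) fun γ hγ => ?_
      refine Set.Finite.biUnion (Finset.finite_toSet (F γ)) fun x hx => ?_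
      apply finite_lt
      have h1 := hg γ (Finset.mem_coe.mp hγ) x ((hF γ x).mp (Finset.mem_coe.mp hx))
      exact sub_ne_zero.mpr h1
  refine hdens.mono hBfin ?_
  rintro v ⟨w, hwv, hw⟩
  by_cases hvB : v ∈ B
  · exact Or.inl hvB
  right
  rw [hB] at hvB
  simp only [Set.mem_union, not_or] at hvB
  obtain ⟨hgood', hint', hclose'⟩ := hvB
  have hgood : Good (v.valuation K) φ := by
    by_contra h; exact hgood' h
  refine ⟨hgood, ?_⟩
  intro γ hγ
  have hγ1 : v.valuation K γ ≤ 1 := by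
    by_contra h
    apply hint'
    simp only [Set.mem_iUnion]
    exact ⟨γ, hγ, h⟩
  refine ⟨hγ1, ?_⟩
  rintro ⟨k, hk, hper⟩
  -- the valuation above
  have hlo : w.asIdeal.LiesOver v.asIdeal := by
    rw [← hwv]; exact ⟨rfl⟩
  set e := v.asIdeal.ramificationIdx' w.asIdeal with he
  have he0 : e ≠ 0 :=
    Ideal.IsDedekindDomain.ramificationIdx'_ne_zero_of_liesOver w.asIdeal v.ne_bot
  have ho : Over (v.valuation K) (w.valuation L) e :=
    ⟨he0, fun x => HeightOneSpectrum.valuation_liesOver L v w x⟩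
  -- a preimage of `γ` modulo `v` in `K`
  obtain ⟨m, hm⟩ : ∃ m, k * n + k = n + m := ⟨k * n + k - n, by
    have : n ≤ k * n := Nat.le_mul_of_pos_left n hk
    omega⟩
  have hcong := per_cong hgood hγ1 hper 0 (n + 1)
  rw [zero_add, show k * (n + 1) = n + m by rw [← hm]; ring, Function.iterate_add_apply] at hcong
  have hcong' : v.valuation K ((ph φ)^[n] ((ph φ)^[m] γ) - γ) < 1 := hcong
  have h1 := ho.lt_one.mpr hcong'
  rw [map_sub, iter_algebraMap] at h1
  obtain ⟨x, hx, hax⟩ := ho.exists_root_close hgood hd (hsp γ hγ) h1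
  apply hclose'
  refine ⟨w, ?_, hwv⟩
  simp only [Set.mem_iUnion]
  refine ⟨γ, hγ, x, (hF γ x).mpr hx, ?_⟩
  have h2 : w.valuation L (g (algebraMap K L ((ph φ)^[m] γ) - x)) < 1 := by rw [hw]; exact hax
  rw [map_sub, g.commutes] at h2
  have e1 : g x - x = (algebraMap K L ((ph φ)^[m] γ) - x) -
      (algebraMap K L ((ph φ)^[m] γ) - g x) := by ring
  show w.valuation L (g x - x) < 1
  rw [e1]
  exact Valuation.map_sub_lt _ hax h2

theorem eq_one_of_pow {x : ℤᵐ⁰} {n : ℕ} (hn : n ≠ 0) (h : x ^ n = 1) : x = 1 := by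
  rcases lt_trichotomy x 1 with h1 | h1 | h1
  · exact absurd h (pow_lt_one₀ zero_le h1 hn).ne
  · exact h1
  · exact absurd h (one_lt_pow₀ h1 hn).ne'

/-- powers of an element congruent to one -/
theorem pow_cong {L : Type*} [Field L] (V : Valuation L ℤᵐ⁰) {x : L} (hx : V (x - 1) < 1) (i : ℕ) :
    V (x ^ i - 1) < 1 := by
  have hx1 : V x = 1 := by
    have h1 : x = (x - 1) + 1 := by ring
    rw [h1]
    have h2 : V (x - 1) < V (1 : L) := by rwa [map_one]
    rw [Valuation.map_add_eq_of_lt_right V h2, map_one]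
  induction i with
  | zero => simp
  | succ i ih =>
    have h1 : x ^ (i + 1) - 1 = x * (x ^ i - 1) + (x - 1) := by ring
    rw [h1]
    refine Valuation.map_add_lt _ ?_ hx
    rw [map_mul, hx1, one_mul]
    exact ih

/-- roots of unity are not congruent to one -/
theorem zeta_far {L : Type*} [Field L] (V : Valuation L ℤᵐ⁰) {l : ℕ} (hVl : V (l : L) = 1)
    {ζ : L} (hζ : ζ ^ l = 1) (h1 : ζ ≠ 1) : ¬ V (ζ - 1) < 1 := by
  intro h
  have h2 : ∑ i ∈ Finset.range l, ζ ^ i = 0 := by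
    have h3 := geom_sum_mul ζ l
    rw [hζ, sub_self] at h3
    rcases mul_eq_zero.mp h3 with h4 | h4
    · exact h4
    · exact absurd (sub_eq_zero.mp h4) h1
  have h3 : (l : L) = - ∑ i ∈ Finset.range l, (ζ ^ i - 1) := by
    rw [Finset.sum_sub_distrib, h2, Finset.sum_const, Finset.card_range, nsmul_eq_mul, mul_one]
    ring
  have h4 : V (l : L) < 1 := by
    rw [h3, Valuation.map_neg]
    exact Valuation.map_sum_lt _ one_ne_zero fun i _ => pow_cong V h i
  rw [hVl] at h4
  exact lt_irrefl _ h4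

/-- a Frobenius element that moves a root of order `l` -/
theorem exists_g {K L : Type} [Field K] [NumberField K] [Field L] [NumberField L]
    [Algebra K L] [IsGalois K L] (v : HeightOneSpectrum (𝓞 K)) {l : ℕ} (hl : l.Prime)
    (hq : l ∣ Ideal.absNorm v.asIdeal - 1) {b : K} (hb0 : b ≠ 0)
    (hb : ¬ (l : ℤ) ∣ log (v.valuation K b)) {θ : L} (hθ : θ ^ l = algebraMap K L b) :
    ∃ (w : HeightOneSpectrum (𝓞 L)) (e : ℕ) (g : L ≃ₐ[K] L),
      Over (v.valuation K) (w.valuation L) e ∧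
      (∀ x : L, w.valuation L x ≤ 1 →
        w.valuation L (g x - x ^ Ideal.absNorm v.asIdeal) < 1) ∧
      g θ ≠ θ ∧ w.valuation L (l : L) = 1 := by
  set q := Ideal.absNorm v.asIdeal with hqdef
  have hq1 : 1 < q := HeightOneSpectrum.one_lt_absNorm v
  obtain ⟨p, hp, hpv⟩ : ∃ p : ℕ, p.Prime ∧ v.valuation K (p : K) < 1 := by
    refine ⟨NDE.ChvA.pv v, NDE.ChvA.pv_prime v, ?_⟩
    have h1 : v.valuation K (algebraMap (𝓞 K) K ((NDE.ChvA.pv v : ℕ) : 𝓞 K)) < 1 :=
      (v.valuation_lt_one_iff_mem (K := K) _).2 (NDE.ChvA.pv_mem v)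
    rwa [map_natCast] at h1
  have hqv : v.valuation K (q : K) < 1 := by
    have h1 : v.valuation K (algebraMap (𝓞 K) K ((q : ℕ) : 𝓞 K)) < 1 :=
      (v.valuation_lt_one_iff_mem (K := K) _).2 (Ideal.absNorm_mem v.asIdeal)
    rwa [map_natCast] at h1
  have hlv : v.valuation K (l : K) = 1 := by
    refine le_antisymm (natCast_le _) ?_
    by_contra h
    push Not at h
    obtain ⟨k, hk⟩ := hq
    have h1 : (1 : K) = (q : K) - (l : K) * (k : K) := by
      have h2 : (q : K) = ((q - 1 : ℕ) : K) + 1 := by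
        rw [← Nat.cast_succ]
        congr 1
        omega
      rw [h2, hk]
      push_cast
      ring
    have h2 : v.valuation K (1 : K) < 1 := by
      rw [h1]
      refine Valuation.map_sub_lt _ hqv ?_
      rw [map_mul, mul_comm]
      exact mul_lt_one_aux (natCast_le _) h
    rw [map_one] at h2
    exact lt_irrefl _ h2
  have hpl : p ≠ l := by
    rintro rfl
    rw [hlv] at hpv
    exact lt_irrefl _ hpv
  obtain ⟨w, e, τ, h, hτ, hτV, hh, hhV⟩ := AAP.exists_tame_frob K L v p hp hpv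
  set V := w.valuation L with hV
  have ho := hτ.ov
  have hθ0 : θ ≠ 0 := by
    rintro rfl
    rw [zero_pow hl.ne_zero] at hθ
    exact hb0 ((map_eq_zero (algebraMap K L)).mp hθ.symm)
  have hτθ : τ θ ≠ θ := by
    intro hfix
    obtain ⟨s, k, hk⟩ := hτ.fixed hθ0 (i := 1) (by rw [pow_one]; exact hfix)
    have h1 : V θ ^ l = v.valuation K b ^ e := by
      rw [ho.val, ← hθ, map_pow]
    have h2 := congrArg log h1
    rw [log_pow, log_pow, nsmul_eq_mul, nsmul_eq_mul] at h2
    have hcop : IsCoprime ((p : ℤ) ^ s) (l : ℤ) := by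
      apply IsCoprime.pow_left
      exact Nat.isCoprime_iff_coprime.mpr ((Nat.coprime_primes hp hl).mpr hpl)
    obtain ⟨a, c, hac⟩ := hcop
    apply hb
    have he : (e : ℤ) ≠ 0 := by exact_mod_cast ho.ne
    refine ⟨a * k + c * log (v.valuation K b), ?_⟩
    apply mul_left_cancel₀ he
    push_cast at hk
    rw [one_mul] at hk
    calc (e : ℤ) * log (v.valuation K b) = (l : ℤ) * log (V θ) := h2.symm
      _ = (l : ℤ) * ((a * (p : ℤ) ^ s + c * l) * log (V θ)) := by rw [hac, one_mul]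
      _ = (l : ℤ) * (a * ((p : ℤ) ^ s * log (V θ)) + c * (l * log (V θ))) := by ring
      _ = (l : ℤ) * (a * (e * k) + c * (e * log (v.valuation K b))) := by rw [hk, h2]
      _ = (e : ℤ) * (l * (a * k + c * log (v.valuation K b))) := by ring
  have hVl : V (l : L) = 1 := by
    have h1 := ho.eq_one.mpr hlv
    rwa [map_natCast] at h1
  by_cases hhθ : h θ = θ
  · refine ⟨w, e, τ * h, ho, fun x hx => ?_, ?_, hVl⟩
    · have h1 := hh.frob x hx
      have h2 : V (h x) ≤ 1 := by rw [hhV]; exact hx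
      have h3 := hτ.inert _ h2
      have h4 : (τ * h) x - x ^ q = (τ (h x) - h x) + (h x - x ^ q) := by
        rw [AlgEquiv.mul_apply]
        ring
      rw [h4]
      exact Valuation.map_add_lt _ h3 h1
    · rw [AlgEquiv.mul_apply, hhθ]
      exact hτθ
  · exact ⟨w, e, h, ho, hh.frob, hhθ, hVl⟩

section

variable {K L : Type} [Field K] [Field L] [Algebra K L] {v : Valuation K ℤᵐ⁰}
  {V : Valuation L ℤᵐ⁰} {e : ℕ}

theorem ph_add (P : K[X]) (c : K) (z : L) : ph (P + C c) z = ph P z + algebraMap K L c := by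
  rw [ph, ph, map_add, aeval_C]

/-- no cancellation for fixed points -/
theorem no_cancel (ho : Over v V e) {P : K[X]} (hP : Good v P) (hd : 2 ≤ P.natDegree) {l q : ℕ}
    (hl : l.Prime) (hlP : l ∣ P.natDegree) (hq0 : 0 < q) (hq : l ∣ q - 1) {c : K} (hc : 1 < v c)
    (g : L ≃ₐ[K] L) (hg : ∀ x : L, V x ≤ 1 → V (g x - x ^ q) < 1) (hVl : V (l : L) = 1) {θ : L}
    (hθ : θ ^ l = algebraMap K L (- c / P.leadingCoeff)) (hgθ : g θ ≠ θ) {z : L} (hz : g z = z)
    (hz1 : 1 < V z) (hzc : V z ^ P.natDegree = V (algebraMap K L c))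
    (hlt : V (ph P z + algebraMap K L c) < V (algebraMap K L c)) : False := by
  set d := P.natDegree with hdd
  set A : L := algebraMap K L P.leadingCoeff with hA
  set E : L := algebraMap K L c with hE
  have hVA : V A = 1 := ho.eq_one.mpr hP.lead
  have hA0 : A ≠ 0 := by
    intro h0
    rw [h0, map_zero] at hVA
    exact zero_ne_one hVA
  have hVE : 1 < V E := by
    rw [hE, ← ho.val]
    exact one_lt_pow₀ hc ho.ne
  have hVE0 : 0 < V E := zero_lt_one.trans hVE
  -- the leading term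
  obtain ⟨m, hm⟩ : ∃ m, d = m + 1 := ⟨d - 1, by omega⟩
  have h1 : V (ph P z - A * z ^ d) < V E := by
    have h2 : ph P z = ∑ i ∈ Finset.range (m + 1), algebraMap K L (P.coeff i) * z ^ i +
        A * z ^ d := by
      rw [ph, aeval_eq_sum_range, Finset.sum_range_succ]
      rw [← hdd, hm]
      simp only [Algebra.smul_def]
      rw [hA, leadingCoeff, ← hdd, hm]
    rw [h2, add_sub_cancel_right]
    have h3 : V (∑ i ∈ Finset.range (m + 1), algebraMap K L (P.coeff i) * z ^ i) ≤ V z ^ m := by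
      apply Valuation.map_sum_le
      intro i hi
      rw [Finset.mem_range] at hi
      rw [map_mul, map_pow]
      calc V (algebraMap K L (P.coeff i)) * V z ^ i ≤ 1 * V z ^ i :=
            mul_le_mul_left (ho.le_one.mpr (hP.int i)) _
        _ = V z ^ i := one_mul _
        _ ≤ V z ^ m := pow_le_pow_right₀ hz1.le (by omega)
    refine h3.trans_lt ?_
    rw [← hzc, hm, pow_succ]
    exact lt_mul_of_one_lt_right (pow_pos (zero_lt_one.trans hz1) m) hz1
  have h2 : V (A * z ^ d + E) < V E := by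
    have h3 : A * z ^ d + E = (ph P z + E) - (ph P z - A * z ^ d) := by ring
    rw [h3]
    exact Valuation.map_sub_lt _ hlt h1
  have hθE : A * θ ^ l = - E := by
    rw [hθ, map_div₀, map_neg, ← hA, ← hE]
    field_simp
  have h3 : V (z ^ d - θ ^ l) < V E := by
    have h4 : A * (z ^ d - θ ^ l) = A * z ^ d + E := by
      rw [mul_sub, hθE]
      ring
    have h5 : V (A * (z ^ d - θ ^ l)) = V (z ^ d - θ ^ l) := by rw [map_mul, hVA, one_mul]
    rw [← h5, h4]
    exact h2
  have hVθ : V (θ ^ l) = V E := by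
    have h4 : V (A * θ ^ l) = V E := by rw [hθE, Valuation.map_neg]
    rwa [map_mul, hVA, one_mul] at h4
  have hθ0 : θ ≠ 0 := by
    rintro rfl
    rw [zero_pow hl.ne_zero, map_zero] at hVθ
    exact hVE0.ne hVθ
  obtain ⟨j, hj⟩ := hlP
  have hyz : (z ^ j) ^ l = z ^ d := by
    rw [← pow_mul, mul_comm, ← hj]
  set u : L := z ^ j / θ with hu
  have hul : V (u ^ l - 1) < 1 := by
    have h4 : u ^ l - 1 = (z ^ d - θ ^ l) / θ ^ l := by
      rw [hu, div_pow, hyz, sub_div, div_self (pow_ne_zero _ hθ0)]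
    rw [h4, map_div₀, hVθ]
    exact (div_lt_one₀ hVE0).mpr h3
  have hVu : V u = 1 := by
    have h4 : V (u ^ l) = 1 := by
      have h5 : u ^ l = (u ^ l - 1) + 1 := by ring
      rw [h5]
      have h6 : V (u ^ l - 1) < V (1 : L) := by rwa [map_one]
      rw [Valuation.map_add_eq_of_lt_right V h6, map_one]
    rw [map_pow] at h4
    exact eq_one_of_pow hl.ne_zero h4
  set ζ : L := g θ / θ with hζ
  have hζl : ζ ^ l = 1 := by
    rw [hζ, div_pow, ← map_pow, hθ, g.commutes, ← hθ, div_self (pow_ne_zero _ hθ0)]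
  have hζ1 : ζ ≠ 1 := by
    intro h4
    rw [hζ, div_eq_one_iff_eq hθ0] at h4
    exact hgθ h4
  have hVζ : V ζ = 1 := by
    have h4 : V ζ ^ l = 1 := by rw [← map_pow, hζl, map_one]
    exact eq_one_of_pow hl.ne_zero h4
  have hζ0 : ζ ≠ 0 := by
    intro h0
    rw [h0, map_zero] at hVζ
    exact zero_ne_one hVζ
  have hgu : g u = u / ζ := by
    have hgθ0 : g θ ≠ 0 := (map_ne_zero g).mpr hθ0
    rw [hu, hζ, map_div₀, map_pow, hz]
    field_simp
  obtain ⟨k, hk⟩ := hq
  have huq : V (u ^ q - u) < 1 := by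
    have h4 : u ^ q - u = u * ((u ^ l) ^ k - 1) := by
      have h5 : q = l * k + 1 := by omega
      rw [h5, pow_succ, pow_mul]
      ring
    rw [h4, map_mul, hVu, one_mul]
    exact pow_cong V hul k
  have hguu : V (g u - u) < 1 := by
    have h4 : g u - u = (g u - u ^ q) + (u ^ q - u) := by ring
    rw [h4]
    exact Valuation.map_add_lt _ (hg u hVu.le) huq
  have hfin : V (ζ - 1) < 1 := by
    have h4 : ζ - 1 = - (ζ * (g u - u) / u) := by
      have hu0 : u ≠ 0 := by
        intro h0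
        rw [h0, map_zero] at hVu
        exact zero_ne_one hVu
      rw [hgu]
      field_simp
      ring
    rw [h4, Valuation.map_neg, map_div₀, map_mul, hVζ, hVu, one_mul, div_one]
    exact hguu
  exact zeta_far V hVl hζl hζ1 hfin

/-- fixed points escape -/
theorem escape (ho : Over v V e) {P : K[X]} (hP : Good v P) (hd : 2 ≤ P.natDegree) {l q : ℕ}
    (hl : l.Prime) (hlP : l ∣ P.natDegree) (hq0 : 0 < q) (hq : l ∣ q - 1) {c : K} (hc : 1 < v c)
    (g : L ≃ₐ[K] L) (hg : ∀ x : L, V x ≤ 1 → V (g x - x ^ q) < 1) (hVl : V (l : L) = 1) {θ : L}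
    (hθ : θ ^ l = algebraMap K L (- c / P.leadingCoeff)) (hgθ : g θ ≠ θ) {z : L} (hz : g z = z) :
    V (algebraMap K L c) ≤ V (ph (P + C c) z) ∧ V z ^ 2 ≤ V (ph (P + C c) z) := by
  have hVE : 1 < V (algebraMap K L c) := by
    rw [← ho.val]
    exact one_lt_pow₀ hc ho.ne
  rw [ph_add]
  rcases le_or_gt (V z) 1 with hz1 | hz1
  · have h1 : V (ph P z) < V (algebraMap K L c) := (ho.good_le hP hz1).trans_lt hVE
    rw [Valuation.map_add_eq_of_lt_right V h1]
    exact ⟨le_rfl, (pow_le_one' hz1 2).trans hVE.le⟩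
  · have h1 : V (ph P z) = V z ^ P.natDegree := ho.gt hP hz1
    have h2 : V z ^ 2 ≤ V z ^ P.natDegree := pow_le_pow_right₀ hz1.le hd
    rcases lt_trichotomy (V z ^ P.natDegree) (V (algebraMap K L c)) with h3 | h3 | h3
    · rw [Valuation.map_add_eq_of_lt_right V (by rwa [h1])]
      exact ⟨le_rfl, h2.trans h3.le⟩
    · have h4 : ¬ V (ph P z + algebraMap K L c) < V (algebraMap K L c) := fun h5 =>
        no_cancel ho hP hd hl hlP hq0 hq hc g hg hVl hθ hgθ hz hz1 h3 h5
      push Not at h4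
      exact ⟨h4, (h2.trans h3.le).trans h4⟩
    · rw [Valuation.map_add_eq_of_lt_left V (by rwa [h1]), h1]
      exact ⟨h3.le, h2⟩

/-- fixed points escape fast -/
theorem escape_iter (ho : Over v V e) {P : K[X]} (hP : Good v P) (hd : 2 ≤ P.natDegree)
    {l q : ℕ} (hl : l.Prime) (hlP : l ∣ P.natDegree) (hq0 : 0 < q) (hq : l ∣ q - 1) {c : K}
    (hc : 1 < v c) (g : L ≃ₐ[K] L) (hg : ∀ x : L, V x ≤ 1 → V (g x - x ^ q) < 1)
    (hVl : V (l : L) = 1) {θ : L} (hθ : θ ^ l = algebraMap K L (- c / P.leadingCoeff))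
    (hgθ : g θ ≠ θ) {z : L} (hz : g z = z) (n : ℕ) :
    V (algebraMap K L c) ^ (2 ^ n) ≤ V ((ph (P + C c))^[n + 1] z) := by
  induction n with
  | zero =>
    rw [pow_zero, pow_one]
    exact (escape ho hP hd hl hlP hq0 hq hc g hg hVl hθ hgθ hz).1
  | succ n ih =>
    rw [Function.iterate_succ_apply']
    have hfix : g ((ph (P + C c))^[n + 1] z) = (ph (P + C c))^[n + 1] z := by
      have h1 := iter_hom (P + C c) (g : L →ₐ[K] L) (n + 1) z
      have h2 : (g : L →ₐ[K] L) z = z := hz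
      rw [h2] at h1
      exact h1
    calc V (algebraMap K L c) ^ (2 ^ (n + 1)) = (V (algebraMap K L c) ^ (2 ^ n)) ^ 2 := by
          rw [← pow_mul, pow_succ]
      _ ≤ V ((ph (P + C c))^[n + 1] z) ^ 2 := pow_le_pow_left' ih 2
      _ ≤ _ := (escape ho hP hd hl hlP hq0 hq hc g hg hVl hθ hgθ hfix).2

end

end EscA

open EscA

theorem dens_shift {K : Type} [Field K] [NumberField K] (P : K[X]) (hd : 2 ≤ P.natDegree) {l : ℕ}
    (hl : l.Prime) (hlP : l ∣ P.natDegree) (v : HeightOneSpectrum (𝓞 K))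
    (hP : Good (v.valuation K) P) (hq : l ∣ Ideal.absNorm v.asIdeal - 1) (c : K)
    (hc : 1 < v.valuation K c) (hcl : ¬ (l : ℤ) ∣ log (v.valuation K c)) (Γ : Finset K) :
    PosDens (GP (P + C c) Γ) := by
  classical
  set φ := P + C c with hφ
  have hφd : φ.natDegree = P.natDegree := by rw [hφ, natDegree_add_C]
  have hφ2 : 2 ≤ φ.natDegree := by rw [hφd]; exact hd
  -- the level
  obtain ⟨n, hn⟩ : ∃ n : ℕ, ∀ γ ∈ Γ, v.valuation K γ < v.valuation K c ^ (2 ^ n) := by
    have h1 : ∀ γ : K, ∃ m : ℕ, v.valuation K γ < v.valuation K c ^ m := by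
      intro γ
      obtain ⟨m, hm⟩ := MulArchimedean.arch (v.valuation K γ) hc
      exact ⟨m + 1, hm.trans_lt (pow_lt_pow_right₀ hc (Nat.lt_succ_self m))⟩
    choose M hM using h1
    refine ⟨∑ γ ∈ Γ, M γ, fun γ hγ => (hM γ).trans_le ?_⟩
    refine pow_le_pow_right₀ hc.le ?_
    exact (Finset.single_le_sum (f := M) (fun _ _ => Nat.zero_le _) hγ).trans
      (Nat.lt_two_pow_self).le
  -- the field
  have hP0 : P.leadingCoeff ≠ 0 := by
    intro h0
    have h1 := hP.lead
    rw [h0, map_zero] at h1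
    exact zero_ne_one h1
  have hc0 : c ≠ 0 := by
    rintro rfl
    rw [map_zero] at hc
    exact not_lt_zero hc
  set b : K := - c / P.leadingCoeff with hb
  have hb0 : b ≠ 0 := div_ne_zero (neg_ne_zero.mpr hc0) hP0
  have hvb : v.valuation K b = v.valuation K c := by
    rw [hb, map_div₀, Valuation.map_neg, hP.lead, div_one]
  set f : K[X] := ∏ γ ∈ Γ, (itp φ (n + 1) - C γ) with hf
  have hf0 : f ≠ 0 := by
    rw [hf]
    apply Finset.prod_ne_zero_iff.mpr
    intro γ _ h0
    have h1 : itp φ (n + 1) = C γ := sub_eq_zero.mp h0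
    have h2 := itp_natDegree φ (n + 1)
    rw [h1, natDegree_C] at h2
    have : 0 < φ.natDegree ^ (n + 1) := by positivity
    omega
  have hX0 : (X ^ l - C b : K[X]) ≠ 0 := X_pow_sub_C_ne_zero hl.pos b
  obtain ⟨L, _, _, _, _, hsplit⟩ := exists_split K (f * (X ^ l - C b))
  have hne : (f * (X ^ l - C b)).map (algebraMap K L) ≠ 0 :=
    (Polynomial.map_ne_zero_iff (algebraMap K L).injective).mpr (mul_ne_zero hf0 hX0)
  have hsp : ∀ γ ∈ Γ, ((itp φ (n + 1)).map (algebraMap K L) - C (algebraMap K L γ)).Splits := by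
    intro γ hγ
    have h1 : (itp φ (n + 1) - C γ).map (algebraMap K L) ∣
        (f * (X ^ l - C b)).map (algebraMap K L) :=
      Polynomial.map_dvd _ ((Finset.dvd_prod_of_mem _ hγ).trans (dvd_mul_right _ _))
    have h2 := hsplit.of_dvd hne h1
    rwa [Polynomial.map_sub, map_C] at h2
  obtain ⟨θ, hθ⟩ : ∃ θ : L, θ ^ l = algebraMap K L b := by
    have h1 : (X ^ l - C b).map (algebraMap K L) ∣ (f * (X ^ l - C b)).map (algebraMap K L) :=
      Polynomial.map_dvd _ (dvd_mul_left _ _)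
    have h2 := hsplit.of_dvd hne h1
    have h3 : ((X ^ l - C b : K[X]).map (algebraMap K L)).degree ≠ 0 := by
      rw [degree_map, degree_X_pow_sub_C hl.pos]
      exact_mod_cast hl.ne_zero
    obtain ⟨θ, h4⟩ := h2.exists_eval_eq_zero h3
    refine ⟨θ, ?_⟩
    rw [eval_map_algebraMap, map_sub, map_pow, aeval_X, aeval_C, sub_eq_zero] at h4
    exact h4
  obtain ⟨w, e, g, ho, hg, hgθ, hVl⟩ := exists_g v hl hq hb0 (by rwa [hvb]) hθ
  refine dens_of_auto φ hφ2 Γ (n + 1) hsp g fun γ hγ x hx hgx => ?_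
  have h1 := escape_iter ho hP hd hl hlP (by have := HeightOneSpectrum.one_lt_absNorm v; omega) hq
    hc g hg hVl hθ hgθ hgx n
  rw [← hφ, hx, ← ho.val, ← ho.val, ← pow_mul, mul_comm, pow_mul] at h1
  exact absurd (pow_lt_pow_left₀ (hn γ hγ) zero_le ho.ne) (not_lt.mpr h1)

end Pool.Agent.PSH
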