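import Mathlib
import Pool.Agent.AAP.Siv

set_option autoImplicit false

/-!
# The sieve modulo the squares of the primes
-/

namespace Pool.Agent.PSH

open NumberField IsDedekindDomain
open Pool.Agent.AAP (vc)
open Pool.Agent.FAM (Cube)
open Pool.Agent.LIM (Null)

namespace Siv2

variable {K : Type} [Field K] [NumberField K]

theorem vc_surj2 {r m R : ℕ} (ω : Module.Basis (Fin m) ℤ (𝓞 K)) (e : Fin R ≃ Fin r × Fin m)
    (V : Finset (HeightOneSpectrum (𝓞 K))) (b : ∀ v : HeightOneSpectrum (𝓞 K), Fin r → 𝓞 K) :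
    ∃ s : Fin R → ℤ, ∀ v ∈ V, ∀ i, vc ω e s i - b v i ∈ v.asIdeal ^ 2 := by
  have h1 : ∀ i : Fin r, ∃ a : 𝓞 K, ∀ v ∈ V, a - b v i ∈ v.asIdeal ^ 2 := by
    intro i
    obtain ⟨a, ha⟩ := IsDedekindDomain.exists_forall_sub_mem_ideal (R := 𝓞 K) (s := V)
      (fun v => v.asIdeal) (fun _ => 2) (fun v _ => v.prime)
      (fun v _ w _ hvw h => hvw (HeightOneSpectrum.ext h)) (fun v => b v.1 i)
    exact ⟨a, fun v hv => ha v hv⟩
  choose a ha using h1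
  refine ⟨fun t => ω.repr (a (e t).1) (e t).2, fun v hv i => ?_⟩
  have h2 : vc ω e (fun t => ω.repr (a (e t).1) (e t).2) i = a i := by
    unfold vc
    simp only [Equiv.apply_symm_apply]
    exact ω.sum_repr (a i)
  rw [h2]
  exact ha i v hv

section
variable {r m R : ℕ} (ω : Module.Basis (Fin m) ℤ (𝓞 K)) (e : Fin R ≃ Fin r × Fin m)

/-- the residues modulo the squares of the primes of a finite set -/
noncomputable def ps (V : Finset (HeightOneSpectrum (𝓞 K))) :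
    (Fin R → ℤ) →+ (∀ v : V, Fin r → 𝓞 K ⧸ v.1.asIdeal ^ 2) where
  toFun s v i := Ideal.Quotient.mk (v.1.asIdeal ^ 2) (vc ω e s i)
  map_zero' := by
    funext v i
    simp [vc]
  map_add' s t := by
    funext v i
    simp only [vc, Pi.add_apply, add_smul, Finset.sum_add_distrib, map_add]

theorem ps_surj (V : Finset (HeightOneSpectrum (𝓞 K))) : Function.Surjective (ps ω e V) := by
  classical
  intro g
  have h1 : ∀ (v : V) (i : Fin r), ∃ a : 𝓞 K, Ideal.Quotient.mk (v.1.asIdeal ^ 2) a = g v i :=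
    fun v i => Ideal.Quotient.mk_surjective (g v i)
  choose a ha using h1
  obtain ⟨s, hs⟩ := vc_surj2 ω e V fun v i => if h : v ∈ V then a ⟨v, h⟩ i else 0
  refine ⟨s, ?_⟩
  funext v i
  change Ideal.Quotient.mk (v.1.asIdeal ^ 2) (vc ω e s i) = g v i
  rw [← ha v i, Ideal.Quotient.eq]
  have h2 := hs v.1 v.2 i
  rwa [dif_pos v.2] at h2

end

theorem norm_pos (v : HeightOneSpectrum (𝓞 K)) : (0 : ℝ) < (Ideal.absNorm v.asIdeal : ℝ) := by
  have := TameArb.two_le_norm K v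
  exact_mod_cast (by omega : 0 < Ideal.absNorm v.asIdeal)

theorem fin_quot (v : HeightOneSpectrum (𝓞 K)) : Finite (𝓞 K ⧸ v.asIdeal ^ 2) :=
  Ideal.finiteQuotientOfFreeOfNeBot _ (pow_ne_zero 2 v.ne_bot)

theorem card_quot (v : HeightOneSpectrum (𝓞 K)) :
    Nat.card (𝓞 K ⧸ v.asIdeal ^ 2) = Ideal.absNorm v.asIdeal ^ 2 := by
  rw [← map_pow, Ideal.absNorm_apply]
  rfl

/-- the sieve modulo the squares of the primes -/
theorem sieve2 {r m R : ℕ} (ω : Module.Basis (Fin m) ℤ (𝓞 K)) (e : Fin R ≃ Fin r × Fin m)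
    (S : Set (HeightOneSpectrum (𝓞 K)))
    (A : ∀ v : HeightOneSpectrum (𝓞 K), Set (Fin r → 𝓞 K ⧸ v.asIdeal ^ 2))
    (δ : HeightOneSpectrum (𝓞 K) → ℝ) (h0 : ∀ v ∈ S, 0 ≤ δ v)
    (h1 : ∀ v ∈ S, ((A v).ncard : ℝ) ≤ (1 - δ v) * ((Ideal.absNorm v.asIdeal : ℝ) ^ 2) ^ r)
    (h2 : ¬ Summable fun v : S => δ v.1) :
    Null {s : Fin R → ℤ | ∀ v ∈ S,
      (fun i => Ideal.Quotient.mk (v.asIdeal ^ 2) (vc ω e s i)) ∈ A v} := by
  classical
  intro ε hε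
  obtain ⟨B, hB⟩ : ∃ B : ℝ, Real.exp (-B) ≤ ε / 2 := by
    have h3 : Filter.Tendsto (fun B : ℝ => Real.exp (-B)) Filter.atTop (nhds 0) :=
      Real.tendsto_exp_atBot.comp Filter.tendsto_neg_atTop_atBot
    exact ((h3.eventually (gt_mem_nhds (half_pos hε))).exists).imp fun _ h => h.le
  obtain ⟨u, hu⟩ : ∃ u : Finset S, B < ∑ v ∈ u, δ v.1 := by
    by_contra hcon
    push Not at hcon
    exact h2 (summable_of_sum_le (fun v => h0 v.1 v.2) hcon)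
  obtain ⟨V, hV⟩ : ∃ V : Finset (HeightOneSpectrum (𝓞 K)), V = u.map (Function.Embedding.subtype _) :=
    ⟨_, rfl⟩
  have hVS : ∀ v ∈ V, v ∈ S := by
    intro v hv
    rw [hV, Finset.mem_map] at hv
    obtain ⟨w, _, rfl⟩ := hv
    exact w.2
  have hsum : B ≤ ∑ v ∈ V, δ v := by
    rw [hV, Finset.sum_map]
    exact hu.le
  have hfin : ∀ v : HeightOneSpectrum (𝓞 K), Finite (𝓞 K ⧸ v.asIdeal ^ 2) := fin_quot
  have hcard : ∀ v : HeightOneSpectrum (𝓞 K),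
      Nat.card (Fin r → 𝓞 K ⧸ v.asIdeal ^ 2) = (Ideal.absNorm v.asIdeal ^ 2) ^ r := by
    intro v
    rw [Nat.card_fun, Nat.card_fin, card_quot]
  obtain ⟨T, hT⟩ : ∃ T : Set (∀ v : V, Fin r → 𝓞 K ⧸ v.1.asIdeal ^ 2),
    T = Set.pi Set.univ fun v : V => A v.1 := ⟨_, rfl⟩
  obtain ⟨H₀, hH⟩ := AAP.equ (ps ω e V) (ps_surj ω e V) T (ε / 2) (half_pos hε)
  refine ⟨H₀, fun H hH0 => ?_⟩
  have h4 := hH H hH0
  have h5 : (T.ncard : ℝ) / Nat.card (∀ v : V, Fin r → 𝓞 K ⧸ v.1.asIdeal ^ 2) ≤ ε / 2 := by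
    have h7 : (T.ncard : ℝ) = ∏ v : V, ((A v.1).ncard : ℝ) := by
      rw [← Nat.card_coe_set_eq, hT, Nat.card_congr (Equiv.Set.univPi fun v : V => A v.1),
        Nat.card_pi, Nat.cast_prod]
      exact Finset.prod_congr rfl fun v _ => by rw [Nat.card_coe_set_eq]
    have h8 : (Nat.card (∀ v : V, Fin r → 𝓞 K ⧸ v.1.asIdeal ^ 2) : ℝ) =
        ∏ v : V, ((Ideal.absNorm v.1.asIdeal : ℝ) ^ 2) ^ r := by
      rw [Nat.card_pi, Nat.cast_prod]
      exact Finset.prod_congr rfl fun v _ => by rw [hcard, Nat.cast_pow, Nat.cast_pow]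
    rw [h7, h8, ← Finset.prod_div_distrib]
    have h9 : ∀ v : V, ((A v.1).ncard : ℝ) / ((Ideal.absNorm v.1.asIdeal : ℝ) ^ 2) ^ r ≤
        Real.exp (-δ v.1) := by
      intro v
      have h10 := norm_pos v.1
      rw [div_le_iff₀ (pow_pos (pow_pos h10 2) r)]
      refine (h1 v.1 (hVS v.1 v.2)).trans
        (mul_le_mul_of_nonneg_right ?_ (pow_pos (pow_pos h10 2) r).le)
      have := Real.add_one_le_exp (-δ v.1)
      linarith
    calc ∏ v : V, ((A v.1).ncard : ℝ) / ((Ideal.absNorm v.1.asIdeal : ℝ) ^ 2) ^ r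
        ≤ ∏ v : V, Real.exp (-δ v.1) :=
          Finset.prod_le_prod (fun v _ => by positivity) fun v _ => h9 v
      _ = Real.exp (-∑ v ∈ V, δ v) := by
          rw [← Real.exp_sum, Finset.sum_neg_distrib, Finset.sum_coe_sort V δ]
      _ ≤ Real.exp (-B) := Real.exp_le_exp.2 (neg_le_neg hsum)
      _ ≤ ε / 2 := hB
  have h6 : ((Cube R H : Set (Fin R → ℤ)) ∩
      {s : Fin R → ℤ | ∀ v ∈ S,
        (fun i => Ideal.Quotient.mk (v.asIdeal ^ 2) (vc ω e s i)) ∈ A v}).ncard ≤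
      ((Cube R H).filter fun s => ps ω e V s ∈ T).card := by
    rw [← Set.ncard_coe_finset]
    refine Set.ncard_le_ncard ?_ (Finset.finite_toSet _)
    rintro s ⟨hs1, hs2⟩
    rw [Finset.coe_filter]
    refine ⟨hs1, ?_⟩
    rw [hT]
    exact fun v _ => hs2 v.1 (hVS v.1 v.2)
  calc (((Cube R H : Set (Fin R → ℤ)) ∩ {s : Fin R → ℤ |
        ∀ v ∈ S, (fun i => Ideal.Quotient.mk (v.asIdeal ^ 2) (vc ω e s i)) ∈ A v}).ncard : ℝ)
      ≤ _ := by exact_mod_cast h6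
    _ ≤ _ := h4
    _ ≤ (ε / 2 + ε / 2) * (2 * (H : ℝ) + 1) ^ R :=
        mul_le_mul_of_nonneg_right (add_le_add_left h5 _) (by positivity)
    _ = ε * (2 * (H : ℝ) + 1) ^ R := by rw [add_halves]

/-! ### the class -/

/-- the residues modulo the square of `v` that are divisible by `v` -/
def Dv (v : HeightOneSpectrum (𝓞 K)) : Set (𝓞 K ⧸ v.asIdeal ^ 2) :=
  {y | ∃ a ∈ v.asIdeal, Ideal.Quotient.mk (v.asIdeal ^ 2) a = y}

theorem card_Dv (v : HeightOneSpectrum (𝓞 K)) : (Dv v).ncard = Ideal.absNorm v.asIdeal := by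
  classical
  have hfin := fin_quot v
  have hle : v.asIdeal ^ 2 ≤ v.asIdeal := Ideal.pow_le_self two_ne_zero
  let φ : (𝓞 K ⧸ v.asIdeal ^ 2) →+ (𝓞 K ⧸ v.asIdeal) :=
    (Ideal.Quotient.factor hle : (𝓞 K ⧸ v.asIdeal ^ 2) →+* (𝓞 K ⧸ v.asIdeal)).toAddMonoidHom
  have hφ : ∀ a : 𝓞 K, φ (Ideal.Quotient.mk _ a) = Ideal.Quotient.mk _ a := fun a => rfl
  have hsurj : Function.Surjective φ := by
    intro y
    obtain ⟨a, rfl⟩ := Ideal.Quotient.mk_surjective y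
    exact ⟨Ideal.Quotient.mk _ a, hφ a⟩
  have hker : (Dv v : Set _) = (φ.ker : Set (𝓞 K ⧸ v.asIdeal ^ 2)) := by
    ext y
    rw [SetLike.mem_coe, AddMonoidHom.mem_ker]
    obtain ⟨a, rfl⟩ := Ideal.Quotient.mk_surjective y
    rw [hφ, Ideal.Quotient.eq_zero_iff_mem]
    constructor
    · rintro ⟨b, hb, hab⟩
      rw [Ideal.Quotient.eq] at hab
      have h1 := hle hab
      have h2 := v.asIdeal.sub_mem hb h1
      rwa [sub_sub_cancel] at h2
    · intro ha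
      exact ⟨a, ha, rfl⟩
  have h1 : Nat.card φ.ker * Nat.card (𝓞 K ⧸ v.asIdeal) = Nat.card (𝓞 K ⧸ v.asIdeal ^ 2) := by
    have h2 := AddSubgroup.card_mul_index φ.ker
    rw [AddSubgroup.index_ker, AddMonoidHom.range_eq_top.2 hsurj] at h2
    rw [← h2]
    congr 1
    exact (Nat.card_congr AddSubgroup.topEquiv.toEquiv).symm
  have h2 : Nat.card (𝓞 K ⧸ v.asIdeal) = Ideal.absNorm v.asIdeal := by
    rw [Ideal.absNorm_apply]
    rfl
  rw [h2, card_quot] at h1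
  have h3 := TameArb.two_le_norm K v
  have h4 : Nat.card φ.ker = Ideal.absNorm v.asIdeal :=
    Nat.eq_of_mul_eq_mul_right (by omega) (h1.trans (pow_two _))
  rw [hker, ← Nat.card_coe_set_eq]
  exact h4

/-- the good pairs modulo the square of `v` -/
def Gv (v : HeightOneSpectrum (𝓞 K)) : Set (Fin 2 → 𝓞 K ⧸ v.asIdeal ^ 2) :=
  {x | x 0 ∈ Dv v ∧ x 0 ≠ 0 ∧ x 1 ∉ Dv v}

theorem card_Gv (v : HeightOneSpectrum (𝓞 K)) : (Gv v).ncard =
    (Ideal.absNorm v.asIdeal - 1) * (Ideal.absNorm v.asIdeal ^ 2 - Ideal.absNorm v.asIdeal) := by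
  classical
  have hfin := fin_quot v
  have h1 : Gv v = (finTwoArrowEquiv (𝓞 K ⧸ v.asIdeal ^ 2)).symm ''
      ((Dv v \ {0}) ×ˢ (Dv v)ᶜ) := by
    ext x
    constructor
    · rintro ⟨h1, h2, h3⟩
      refine ⟨(x 0, x 1), ⟨⟨h1, h2⟩, h3⟩, ?_⟩
      funext i
      fin_cases i <;> rfl
    · rintro ⟨⟨a, b⟩, ⟨⟨h1, h2⟩, h3⟩, rfl⟩
      exact ⟨h1, h2, h3⟩
  rw [h1, Set.ncard_image_of_injective _ (Equiv.injective _), Set.ncard_prod]
  have h0 : (0 : 𝓞 K ⧸ v.asIdeal ^ 2) ∈ Dv v := ⟨0, v.asIdeal.zero_mem, map_zero _⟩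
  congr 1
  · rw [Set.ncard_sdiff_singleton_of_mem h0, card_Dv]
  · rw [Set.ncard_compl, card_Dv, card_quot]

end Siv2

open Siv2 in
/-- almost all fractions have a prime of the set `V` exactly once in the denominator -/
theorem null_ex {K : Type} [Field K] [NumberField K] {m R : ℕ}
    (ω : Module.Basis (Fin m) ℤ (𝓞 K)) (e : Fin R ≃ Fin 2 × Fin m)
    (V : Set (HeightOneSpectrum (𝓞 K)))
    (hV : ¬ Summable fun v : V => ((Ideal.absNorm v.1.asIdeal : ℝ))⁻¹) :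
    Null {s : Fin R → ℤ | ¬ ∃ v ∈ V, vc ω e s 0 ∈ v.asIdeal ∧ vc ω e s 0 ∉ v.asIdeal ^ 2 ∧
      vc ω e s 1 ∉ v.asIdeal} := by
  classical
  have h1 := sieve2 ω e V (fun v => (Gv v)ᶜ) (fun v => (1 / 4) * (Ideal.absNorm v.asIdeal : ℝ)⁻¹)
    (fun v _ => by positivity) (fun v _ => ?_) ?_
  · intro ε hε
    obtain ⟨H₀, hH⟩ := h1 ε hε
    refine ⟨H₀, fun H hH0 => le_trans (Nat.cast_le.2 (Set.ncard_le_ncard ?_
      ((Finset.finite_toSet _).subset Set.inter_subset_left))) (hH H hH0)⟩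
    rintro s ⟨hs1, hs2⟩
    refine ⟨hs1, fun v hv hG => hs2 ⟨v, hv, ?_⟩⟩
    obtain ⟨⟨a, ha, ha'⟩, h3, h4⟩ := hG
    have hle : v.asIdeal ^ 2 ≤ v.asIdeal := Ideal.pow_le_self two_ne_zero
    refine ⟨?_, ?_, ?_⟩
    · rw [Ideal.Quotient.eq] at ha'
      have h5 := v.asIdeal.sub_mem ha (hle ha')
      rwa [sub_sub_cancel] at h5
    · intro h5
      exact h3 (Ideal.Quotient.eq_zero_iff_mem.2 h5)
    · intro h5
      exact h4 ⟨_, h5, rfl⟩
  · -- the count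
    have hfin := fin_quot v
    have hq := TameArb.two_le_norm K v
    have hcard : Nat.card (Fin 2 → 𝓞 K ⧸ v.asIdeal ^ 2) = (Ideal.absNorm v.asIdeal ^ 2) ^ 2 := by
      rw [Nat.card_fun, Nat.card_fin, card_quot]
    rw [Set.ncard_compl, hcard, card_Gv]
    obtain ⟨q, hq'⟩ : ∃ q, q = Ideal.absNorm v.asIdeal := ⟨_, rfl⟩
    rw [← hq'] at hq ⊢
    have h3 : (q - 1) * (q ^ 2 - q) ≤ (q ^ 2) ^ 2 := by
      calc (q - 1) * (q ^ 2 - q) ≤ q ^ 2 * q ^ 2 :=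
            Nat.mul_le_mul ((Nat.sub_le _ _).trans (Nat.le_self_pow two_ne_zero q)) (Nat.sub_le _ _)
        _ = (q ^ 2) ^ 2 := by ring
    have h4 : q ≤ q ^ 2 := Nat.le_self_pow two_ne_zero q
    rw [Nat.cast_sub h3, Nat.cast_mul, Nat.cast_sub (by omega : 1 ≤ q), Nat.cast_sub h4]
    push_cast
    have h5 : (2 : ℝ) ≤ q := by exact_mod_cast hq
    have h6 : (0 : ℝ) < q := by linarith
    have h7 : (1 / 4) * (q : ℝ)⁻¹ * ((q : ℝ) ^ 2) ^ 2 = q ^ 3 / 4 := by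
      field_simp
    have h8 : (q : ℝ) ^ 3 / 4 ≤ (q - 1) * (q ^ 2 - q) := by
      nlinarith [mul_nonneg h6.le (sq_nonneg ((q : ℝ) - 2)),
        mul_nonneg h6.le (by linarith : (0 : ℝ) ≤ q - 2),
        mul_nonneg (mul_nonneg h6.le (by linarith : (0 : ℝ) ≤ q - 2)) h6.le]
    have h9 : (1 - 1 / 4 * (q : ℝ)⁻¹) * ((q : ℝ) ^ 2) ^ 2 = ((q : ℝ) ^ 2) ^ 2 - q ^ 3 / 4 := by
      rw [sub_mul, one_mul, h7]
    rw [h9]
    linarith
  · -- divergence
    intro hsum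
    apply hV
    have h3 := hsum.mul_left 4
    refine h3.congr fun v => ?_
    ring

/-- the same for a set of primes of positive density -/
theorem null_ex_dens {K : Type} [Field K] [NumberField K] {m R : ℕ}
    (ω : Module.Basis (Fin m) ℤ (𝓞 K)) (e : Fin R ≃ Fin 2 × Fin m)
    (V : Set (HeightOneSpectrum (𝓞 K))) (hV : TameArb.PosDens V) :
    Null {s : Fin R → ℤ | ¬ ∃ v ∈ V, vc ω e s 0 ∈ v.asIdeal ∧ vc ω e s 0 ∉ v.asIdeal ^ 2 ∧
      vc ω e s 1 ∉ v.asIdeal} := by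
  refine null_ex ω e V fun hsum => ?_
  have h2 := AAP.PosDens.div hV Set.finite_empty
  rw [Set.sdiff_empty] at h2
  exact h2 hsum

end Pool.Agent.PSH
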