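import Mathlib
import Pool.Agent.TameArb.Down
import Pool.Agent.TameArb.Cheb
import Pool.Agent.AAP.Siv

set_option autoImplicit false

/-!
# The primes whose norm is one modulo a given prime number
-/

namespace Pool.Agent.PSH

open NumberField IsDedekindDomain
open Pool.Agent.TameArb (PosDens pt pt_summable)
open scoped ENNReal

namespace SplAux

variable {K : Type} [Field K] [NumberField K] {L : Type} [Field L] [NumberField L] [Algebra K L]

theorem norm_pow (w : HeightOneSpectrum (𝓞 L)) :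
    ∃ f : ℕ, f ≠ 0 ∧
      Ideal.absNorm w.asIdeal = Ideal.absNorm (w.under (𝓞 K)).asIdeal ^ f := by
  have hm := (w.under (𝓞 K)).isMaximal
  have hm' := w.isMaximal
  have hf : Finite (𝓞 L ⧸ w.asIdeal) := Ideal.finiteQuotientOfFreeOfNeBot _ w.ne_bot
  have hf' : Finite (𝓞 K ⧸ (w.under (𝓞 K)).asIdeal) :=
    Ideal.finiteQuotientOfFreeOfNeBot _ (w.under (𝓞 K)).ne_bot
  let _ : Field (𝓞 K ⧸ (w.under (𝓞 K)).asIdeal) := Ideal.Quotient.field _
  let _ : Algebra (𝓞 K ⧸ (w.under (𝓞 K)).asIdeal) (𝓞 L ⧸ w.asIdeal) :=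
    (Ideal.quotientMap w.asIdeal (algebraMap (𝓞 K) (𝓞 L)) le_rfl).toAlgebra
  have hcard := Module.natCard_eq_pow_finrank (K := 𝓞 K ⧸ (w.under (𝓞 K)).asIdeal)
    (V := 𝓞 L ⧸ w.asIdeal)
  refine ⟨Module.finrank (𝓞 K ⧸ (w.under (𝓞 K)).asIdeal) (𝓞 L ⧸ w.asIdeal), ?_, ?_⟩
  · intro h2
    rw [h2, pow_zero] at hcard
    have : Nontrivial (𝓞 L ⧸ w.asIdeal) := Ideal.Quotient.nontrivial_iff.2 hm'.ne_top
    have h3 := Finite.one_lt_card (α := 𝓞 L ⧸ w.asIdeal)
    omega
  · rw [Ideal.absNorm_apply, Ideal.absNorm_apply, Submodule.cardQuot_apply,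
      Submodule.cardQuot_apply, hcard]

theorem fib (v : HeightOneSpectrum (𝓞 K)) :
    ENat.card ((fun w : HeightOneSpectrum (𝓞 L) => w.under (𝓞 K)) ⁻¹' {v}) ≤
      (Module.finrank K L : ℕ∞) := by
  have hm := v.isMaximal
  have hnz : NoZeroSMulDivisors (𝓞 K) (𝓞 L) := ⟨fun {a x} h => by
    rw [Algebra.smul_def, mul_eq_zero] at h
    rcases h with h | h
    · left
      exact (FaithfulSMul.algebraMap_injective (𝓞 K) (𝓞 L)) (h.trans (map_zero _).symm)
    · right
      exact h⟩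
  set P := IsDedekindDomain.primesOverFinset v.asIdeal (𝓞 L) with hP
  have hcard : P.card ≤ Module.finrank K L :=
    Ideal.card_primesOverFinset_le_finrank (𝓞 L) K L v.ne_bot
  let ι : ((fun w : HeightOneSpectrum (𝓞 L) => w.under (𝓞 K)) ⁻¹' {v}) → P := fun q =>
    ⟨q.1.asIdeal, by
      rw [hP, IsDedekindDomain.mem_primesOverFinset_iff v.ne_bot]
      refine ⟨q.1.isPrime, ⟨?_⟩⟩
      have h1 : q.1.under (𝓞 K) = v := q.2
      exact (congrArg HeightOneSpectrum.asIdeal h1).symm⟩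
  have hι : Function.Injective ι := by
    intro q q' h
    apply Subtype.ext
    apply HeightOneSpectrum.ext
    exact congrArg Subtype.val h
  have hfin : Finite ((fun w : HeightOneSpectrum (𝓞 L) => w.under (𝓞 K)) ⁻¹' {v}) :=
    Finite.of_injective ι hι
  have h3 : Nat.card ((fun w : HeightOneSpectrum (𝓞 L) => w.under (𝓞 K)) ⁻¹' {v}) ≤
      Module.finrank K L := by
    refine (Nat.card_le_card_of_injective ι hι).trans ?_
    rw [Nat.card_eq_fintype_card, Fintype.card_coe]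
    exact hcard
  rw [ENat.card_eq_coe_natCard]
  exact_mod_cast h3

theorem sum_le (b : HeightOneSpectrum (𝓞 K) → ℝ≥0∞) (f : HeightOneSpectrum (𝓞 L) → ℝ≥0∞)
    (h : ∀ w, f w ≤ b (w.under (𝓞 K))) :
    ∑' w, f w ≤ (Module.finrank K L : ℝ≥0∞) * ∑' v, b v := by
  calc ∑' w, f w ≤ ∑' w : HeightOneSpectrum (𝓞 L), b (w.under (𝓞 K)) :=
        ENNReal.tsum_le_tsum h
    _ = ∑' v : HeightOneSpectrum (𝓞 K),
          ∑' w : (fun w : HeightOneSpectrum (𝓞 L) => w.under (𝓞 K)) ⁻¹' {v},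
            b (w.1.under (𝓞 K)) :=
        (ENNReal.tsum_fiberwise (fun w : HeightOneSpectrum (𝓞 L) => b (w.under (𝓞 K)))
          (fun w => w.under (𝓞 K))).symm
    _ = ∑' v : HeightOneSpectrum (𝓞 K),
          ∑' _w : (fun w : HeightOneSpectrum (𝓞 L) => w.under (𝓞 K)) ⁻¹' {v}, b v := by
        apply tsum_congr
        intro v
        apply tsum_congr
        intro w
        have h2 : w.1.under (𝓞 K) = v := w.2
        rw [h2]
    _ ≤ ∑' v : HeightOneSpectrum (𝓞 K), (Module.finrank K L : ℝ≥0∞) * b v := by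
        apply ENNReal.tsum_le_tsum
        intro v
        rw [ENNReal.tsum_const]
        apply mul_le_mul_left
        exact_mod_cast fib (L := L) v
    _ = (Module.finrank K L : ℝ≥0∞) * ∑' v, b v := ENNReal.tsum_mul_left

open TameArb.ChebAux in
theorem pt_le (s : ℝ) (hs : 1 < s) (w : HeightOneSpectrum (𝓞 L)) :
    pt s w ≤ pt s (w.under (𝓞 K)) := by
  obtain ⟨f, hf, h⟩ := norm_pow (K := K) w
  have h1 := one_le_norm (w.under (𝓞 K))
  unfold pt
  rw [h]
  push_cast
  exact Real.rpow_le_rpow_of_nonpos (by linarith) (le_self_pow₀ h1 hf) (by linarith)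

open TameArb.ChebAux in
theorem pt_le_two (s : ℝ) (hs : 1 < s) (w : HeightOneSpectrum (𝓞 L))
    (hw : Ideal.absNorm w.asIdeal ≠ Ideal.absNorm (w.under (𝓞 K)).asIdeal) :
    pt s w ≤ pt 2 (w.under (𝓞 K)) := by
  obtain ⟨f, hf, h⟩ := norm_pow (K := K) w
  have h1 := one_le_norm (w.under (𝓞 K))
  have hf1 : f ≠ 1 := by
    intro h2
    rw [h2, pow_one] at h
    exact hw h
  have h2 : ((Ideal.absNorm (w.under (𝓞 K)).asIdeal : ℝ)) ^ 2 ≤
      (Ideal.absNorm w.asIdeal : ℝ) := by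
    rw [h]
    push_cast
    exact pow_le_pow_right₀ h1 (by omega)
  unfold pt
  calc (Ideal.absNorm w.asIdeal : ℝ) ^ (-s) ≤
        ((Ideal.absNorm (w.under (𝓞 K)).asIdeal : ℝ) ^ 2) ^ (-s) :=
        Real.rpow_le_rpow_of_nonpos (by positivity) h2 (by linarith)
    _ ≤ ((Ideal.absNorm (w.under (𝓞 K)).asIdeal : ℝ) ^ 2) ^ (-(1 : ℝ)) :=
        Real.rpow_le_rpow_of_exponent_le (one_le_pow₀ h1) (by linarith)
    _ = (Ideal.absNorm (w.under (𝓞 K)).asIdeal : ℝ) ^ (-(2 : ℝ)) := by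
        rw [← Real.rpow_natCast, ← Real.rpow_mul (by positivity)]
        norm_num

variable (K L) in
open TameArb.ChebAux in
/-- the primes with a prime of the same norm above have positive density -/
theorem deg_one : PosDens {v : HeightOneSpectrum (𝓞 K) | ∃ w : HeightOneSpectrum (𝓞 L),
    w.under (𝓞 K) = v ∧ Ideal.absNorm w.asIdeal = Ideal.absNorm v.asIdeal} := by
  classical
  obtain ⟨C, hC⟩ := TameArb.log_zeta_est L
  obtain ⟨A, hA⟩ : ∃ A : Set (HeightOneSpectrum (𝓞 K)),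
    A = {v : HeightOneSpectrum (𝓞 K) | ∃ w : HeightOneSpectrum (𝓞 L),
      w.under (𝓞 K) = v ∧ Ideal.absNorm w.asIdeal = Ideal.absNorm v.asIdeal} := ⟨_, rfl⟩
  rw [← hA]
  obtain ⟨n, hn⟩ : ∃ n, n = Module.finrank K L := ⟨_, rfl⟩
  have hn1 : 0 < n := by
    rw [hn]
    exact Module.finrank_pos
  have hn0 : (0 : ℝ) < n := by exact_mod_cast hn1
  have key : ∀ s : ℝ, 1 < s → ∑' w : HeightOneSpectrum (𝓞 L), pt s w ≤
      n * (∑' v : A, pt s v.1 + ∑' v : HeightOneSpectrum (𝓞 K), pt 2 v) := by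
    intro s hs
    have h0 : 0 ≤ ∑' v : A, pt s v.1 := tsum_nonneg (fun v => pt_nonneg s v.1)
    have h2 : 0 ≤ ∑' v : HeightOneSpectrum (𝓞 K), pt 2 v := tsum_nonneg (fun v => pt_nonneg 2 v)
    have h3 := sum_le (K := K) (L := L)
      (fun v => (if v ∈ A then ept s v else 0) + ept 2 v) (ept s) (by
        intro w
        by_cases hw : w.under (𝓞 K) ∈ A
        · rw [if_pos hw]
          refine le_trans ?_ le_self_add
          exact ENNReal.ofReal_le_ofReal (pt_le s hs w)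
        · rw [if_neg hw, zero_add]
          refine ENNReal.ofReal_le_ofReal (pt_le_two s hs w fun h => hw ?_)
          rw [hA]
          exact ⟨w, rfl, h⟩)
    rw [ENNReal.tsum_add, tsum_ept hs, tsum_ite (fun v => v ∈ A) hs,
      tsum_ept (by norm_num : (1 : ℝ) < 2), ← hn] at h3
    have h4 : ∑' v : HeightOneSpectrum (𝓞 K), (if v ∈ A then pt s v else 0) =
        ∑' v : A, pt s v.1 := by
      rw [tsum_subtype A (pt s)]
      apply tsum_congr
      intro v
      by_cases hv : v ∈ A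
      · rw [if_pos hv, Set.indicator_of_mem hv]
      · rw [if_neg hv, Set.indicator_of_notMem hv]
    rw [h4, ← ENNReal.ofReal_add h0 h2, ← ENNReal.ofReal_natCast,
      ← ENNReal.ofReal_mul (by positivity)] at h3
    exact (ENNReal.ofReal_le_ofReal_iff (by positivity)).1 h3
  refine ⟨1 / n, by positivity, C / n + ∑' v : HeightOneSpectrum (𝓞 K), pt 2 v,
    fun s hs hs2 => ?_⟩
  have h1 := (abs_le.1 (hC s hs hs2)).2
  have h2 := key s hs
  have h3 : Real.log (1 / (s - 1)) ≤ C + n * (∑' v : A, pt s v.1 +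
      ∑' v : HeightOneSpectrum (𝓞 K), pt 2 v) := by linarith
  have h4 : (1 / (n : ℝ)) * Real.log (1 / (s - 1)) ≤ (1 / (n : ℝ)) *
      (C + n * (∑' v : A, pt s v.1 + ∑' v : HeightOneSpectrum (𝓞 K), pt 2 v)) :=
    mul_le_mul_of_nonneg_left h3 (by positivity)
  have h5 : (1 / (n : ℝ)) *
      (C + n * (∑' v : A, pt s v.1 + ∑' v : HeightOneSpectrum (𝓞 K), pt 2 v)) =
      C / n + (∑' v : A, pt s v.1 + ∑' v : HeightOneSpectrum (𝓞 K), pt 2 v) := by
    field_simp
  rw [h5] at h4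
  linarith

/-- a primitive root of unity of prime order in the residue field -/
theorem dvd_norm {l : ℕ} (hl : l.Prime) {ζ : L} (hζ : IsPrimitiveRoot ζ l)
    (w : HeightOneSpectrum (𝓞 L)) (hw : (l : 𝓞 L) ∉ w.asIdeal) :
    l ∣ Ideal.absNorm w.asIdeal - 1 := by
  have hm := w.isMaximal
  have hf : Finite (𝓞 L ⧸ w.asIdeal) := Ideal.finiteQuotientOfFreeOfNeBot _ w.ne_bot
  let _ : Field (𝓞 L ⧸ w.asIdeal) := Ideal.Quotient.field _
  let _ : Fintype (𝓞 L ⧸ w.asIdeal) := Fintype.ofFinite _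
  have hne : NeZero l := ⟨hl.ne_zero⟩
  have h1 : IsPrimitiveRoot (hζ.toInteger) l := hζ.toInteger_isPrimitiveRoot
  obtain ⟨a, ha⟩ : ∃ a : 𝓞 L ⧸ w.asIdeal, a = Ideal.Quotient.mk w.asIdeal hζ.toInteger :=
    ⟨_, rfl⟩
  have h2 : a ^ l = 1 := by
    rw [ha, ← map_pow, h1.pow_eq_one, map_one]
  have h3 : a ≠ 1 := by
    intro h
    have h4 := h1.geom_sum_eq_zero hl.one_lt
    have h5 := congrArg (Ideal.Quotient.mk w.asIdeal) h4
    rw [map_sum, map_zero] at h5
    simp only [map_pow, ← ha, h, one_pow, Finset.sum_const, Finset.card_range, nsmul_eq_mul,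
      mul_one] at h5
    apply hw
    rw [← Ideal.Quotient.eq_zero_iff_mem, map_natCast]
    exact h5
  have h4 : a ≠ 0 := by
    intro h
    rw [h, zero_pow hl.ne_zero] at h2
    exact zero_ne_one h2
  have h5 : orderOf a = l := by
    have hfl : Fact l.Prime := ⟨hl⟩
    exact orderOf_eq_prime h2 h3
  have h6 := FiniteField.pow_card_sub_one_eq_one a h4
  have h7 := orderOf_dvd_of_pow_eq_one h6
  rw [h5] at h7
  rwa [Ideal.absNorm_apply, Submodule.cardQuot_apply, Nat.card_eq_fintype_card]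

end SplAux

/-- the primes whose norm is one modulo a given prime number have positive density -/
theorem spl (K : Type) [Field K] [NumberField K] {l : ℕ} (hl : l.Prime) :
    PosDens {v : HeightOneSpectrum (𝓞 K) | l ∣ Ideal.absNorm v.asIdeal - 1} := by
  have hne : NeZero l := ⟨hl.ne_zero⟩
  have hnK : NeZero ((l : ℕ) : K) := ⟨by exact_mod_cast hl.ne_zero⟩
  have hnum : NumberField (CyclotomicField l K) := IsCyclotomicExtension.numberField {l} K _
  have hζ := IsCyclotomicExtension.zeta_spec l K (CyclotomicField l K)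
  have h1 := SplAux.deg_one K (CyclotomicField l K)
  have hfin : {v : HeightOneSpectrum (𝓞 K) | (l : 𝓞 K) ∈ v.asIdeal}.Finite := by
    have h2 : Ideal.span {(l : 𝓞 K)} ≠ 0 := by
      rw [Ne, Ideal.zero_eq_bot, Ideal.span_singleton_eq_bot]
      exact_mod_cast hl.ne_zero
    refine (Ideal.finite_factors h2).subset fun v hv => ?_
    exact Ideal.dvd_span_singleton.2 hv
  refine TameArb.PosDens.mono h1 hfin ?_
  rintro v ⟨w, hw, hN⟩
  by_cases hv : (l : 𝓞 K) ∈ v.asIdeal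
  · exact Or.inl hv
  · refine Or.inr ?_
    change l ∣ Ideal.absNorm v.asIdeal - 1
    rw [← hN]
    refine SplAux.dvd_norm hl hζ w fun h => hv ?_
    rw [← hw]
    change algebraMap (𝓞 K) (𝓞 (CyclotomicField l K)) (l : 𝓞 K) ∈ w.asIdeal
    rwa [map_natCast]

theorem spl_sdiff (K : Type) [Field K] [NumberField K] {l : ℕ} (hl : l.Prime)
    {B : Set (HeightOneSpectrum (𝓞 K))} (hB : B.Finite) :
    PosDens ({v : HeightOneSpectrum (𝓞 K) | l ∣ Ideal.absNorm v.asIdeal - 1} \ B) := by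
  refine TameArb.PosDens.mono (spl K hl) hB ?_
  rw [Set.union_sdiff_self]
  exact Set.subset_union_right

theorem split_div_sdiff (K : Type) [Field K] [NumberField K] {l : ℕ} (hl : l.Prime)
    {B : Set (HeightOneSpectrum (𝓞 K))} (hB : B.Finite) :
    ¬ Summable fun v : ({v : HeightOneSpectrum (𝓞 K) | l ∣ Ideal.absNorm v.asIdeal - 1} \ B :
      Set (HeightOneSpectrum (𝓞 K))) => ((Ideal.absNorm v.1.asIdeal : ℝ))⁻¹ :=
  AAP.PosDens.div (spl K hl) hB

theorem split_div (K : Type) [Field K] [NumberField K] {l : ℕ} (hl : l.Prime) :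
    ¬ Summable fun v : {v : HeightOneSpectrum (𝓞 K) // l ∣ Ideal.absNorm v.asIdeal - 1} =>
      ((Ideal.absNorm v.1.asIdeal : ℝ))⁻¹ := by
  intro h
  have h1 := AAP.PosDens.div (spl K hl) Set.finite_empty
  rw [Set.sdiff_empty] at h1
  exact h1 h

end Pool.Agent.PSH
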