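import Mathlib
import Pool.Agent.PSH.Siv2
import Pool.Agent.PSH.Spl
import Pool.Agent.PSH.Esc
import Pool.Agent.HTK.Den
import Pool.Agent.HFW.FH
import Pool.Agent.TameArb.Down

set_option autoImplicit false

/-!
# 100 per cent of the shifts of a polynomial
-/

namespace Pool.Agent.PSH

open NumberField IsDedekindDomain Polynomial
open Pool.Agent.AAP (vc)
open Pool.Agent.LIM (Null)

namespace Fin1

/-- a prime exactly dividing the denominator -/
theorem val_frac {K : Type} [Field K] [NumberField K] (v : HeightOneSpectrum (𝓞 K)) {a b : 𝓞 K}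
    (h1 : b ∈ v.asIdeal) (h2 : b ∉ v.asIdeal ^ 2) (h3 : a ∉ v.asIdeal) :
    v.valuation K ((a : K) / (b : K)) = WithZero.exp (1 : ℤ) := by
  have hb0 : b ≠ 0 := fun h => h2 (by rw [h]; exact Ideal.zero_mem _)
  have hb : v.valuation K (b : K) = WithZero.exp (-1 : ℤ) := by
    rw [show ((b : K)) = algebraMap (𝓞 K) K b from rfl, v.valuation_of_algebraMap]
    have h4 := (v.intValuation_le_pow_iff_mem b 1).2 (by rwa [pow_one])
    have h5 : ¬ v.intValuation b ≤ WithZero.exp (-((2 : ℕ) : ℤ)) := fun h =>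
      h2 ((v.intValuation_le_pow_iff_mem b 2).1 h)
    have hx0 : v.intValuation b ≠ 0 := v.intValuation_ne_zero b hb0
    rw [← WithZero.exp_log hx0] at h4 h5 ⊢
    rw [WithZero.exp_le_exp] at h4 h5
    congr 1
    push_cast at h4 h5
    omega
  have ha : v.valuation K (a : K) = 1 := by
    rw [show ((a : K)) = algebraMap (𝓞 K) K a from rfl, v.valuation_of_algebraMap]
    exact HeightOneSpectrum.intValuation_eq_one_iff.2 h3
  rw [map_div₀, ha, hb, one_div, ← WithZero.exp_neg, neg_neg]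

end Fin1

open Fin1 in
/-- PSH/Fin: 100 per cent of the shifts, by height -/
theorem height_shift' {K : Type} [Field K] [NumberField K] (P : K[X]) (hd : 2 ≤ P.natDegree)
    (ε : ℝ) (hε : 0 < ε) : ∃ B₀ : ℝ, ∀ B : ℝ, B₀ ≤ B →
      (({s : Fin 1 → K | Height.mulHeight (Fin.cons 1 s : Fin (1 + 1) → K) ≤ B ∧
          ¬ ∀ Γ : Finset K, TameArb.PosDens (TameArb.GP (P + C (s 0)) Γ)}.ncard : ℕ) : ℝ) ≤
        ε * ({s : Fin 1 → K | Height.mulHeight (Fin.cons 1 s : Fin (1 + 1) → K) ≤ B}.ncard : ℕ) := by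
  classical
  obtain ⟨l, hl, hlP⟩ := Nat.exists_prime_and_dvd (show P.natDegree ≠ 1 by omega)
  -- the primes
  set V : Set (HeightOneSpectrum (𝓞 K)) := {v | l ∣ Ideal.absNorm v.asIdeal - 1} \
    {v | ¬ TameArb.Good (v.valuation K) P} with hV
  have hdiv : ¬ Summable fun v : V => ((Ideal.absNorm v.1.asIdeal : ℝ))⁻¹ :=
    split_div_sdiff K hl (TameArb.finite_bad hd)
  obtain ⟨m, hm⟩ : ∃ m, m = Module.finrank ℤ (𝓞 K) := ⟨_, rfl⟩
  let ω : Module.Basis (Fin m) ℤ (𝓞 K) := (Module.finBasis ℤ (𝓞 K)).reindex (finCongr hm.symm)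
  let e : Fin (2 * m) ≃ Fin 2 × Fin m := finProdFinEquiv.symm
  have hnull := null_ex ω e V hdiv
  refine HFW.aff_of_proj (r := 1)
    (fun s : Fin 1 → K => ∀ Γ : Finset K, TameArb.PosDens (TameArb.GP (P + C (s 0)) Γ))
    (fun ε hε => ?_) ε hε
  refine HTK.den K 2 le_rfl ω e (fun t : Fin 2 → K => t 0 = 0 ∨
    ¬ ∀ Γ : Finset K, TameArb.PosDens (TameArb.GP (P + C (t 1 / t 0)) Γ)) ?_ ?_ ε hε
  · intro c t hc ht
    rcases ht with ht | ht
    · left
      simp [ht]
    · right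
      have : (c • t) 1 / (c • t) 0 = t 1 / t 0 := by
        simp only [Pi.smul_apply, smul_eq_mul]
        exact mul_div_mul_left _ _ hc
      rw [this]
      exact ht
  · refine LIM.Null.mono (fun s hs => ?_) hnull
    change ¬ ∃ v ∈ V, vc ω e s 0 ∈ v.asIdeal ∧ vc ω e s 0 ∉ v.asIdeal ^ 2 ∧ vc ω e s 1 ∉ v.asIdeal
    rintro ⟨v, hv, h1, h2, h3⟩
    have hs' : ((vc ω e s 0 : 𝓞 K) : K) = 0 ∨ ¬ ∀ Γ : Finset K, TameArb.PosDens
        (TameArb.GP (P + C (((vc ω e s 1 : 𝓞 K) : K) / ((vc ω e s 0 : 𝓞 K) : K))) Γ) := hs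
    rcases hs' with h4 | h4
    · have h5 : vc ω e s 0 = 0 := by exact_mod_cast h4
      exact h2 (by rw [h5]; exact Ideal.zero_mem _)
    · apply h4
      intro Γ
      have h6 := val_frac v h1 h2 h3
      have hg : TameArb.Good (v.valuation K) P := by
        by_contra h
        exact hv.2 h
      refine dens_shift P hd hl hlP v hg hv.1 _ ?_ ?_ Γ
      · rw [h6, ← WithZero.exp_zero, WithZero.exp_lt_exp]
        norm_num
      · rw [h6, WithZero.log_exp]
        intro h7
        have h8 := Int.eq_one_of_dvd_one (by positivity) h7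
        exact hl.one_lt.ne' (by exact_mod_cast h8)

/-- PSH/Fin: 100 per cent of the shifts, by height -/
theorem height_shift {K : Type} [Field K] [NumberField K] (P : K[X]) (hd : 2 ≤ P.natDegree)
    (ε : ℝ) (hε : 0 < ε) : ∃ B₀ : ℝ, ∀ B : ℝ, B₀ ≤ B →
      (({c : K | Height.mulHeight ![1, c] ≤ B ∧
          ¬ ∀ Γ : Finset K, TameArb.PosDens (TameArb.GP (P + C c) Γ)}.ncard : ℕ) : ℝ) ≤
        ε * ({c : K | Height.mulHeight ![1, c] ≤ B}.ncard : ℕ) := by
  obtain ⟨B₀, h⟩ := height_shift' P hd ε hε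
  refine ⟨B₀, fun B hB => ?_⟩
  have h1 := h B hB
  have hinj : Function.Injective (fun (c : K) (_ : Fin 1) => c) := fun a b hab => congrFun hab 0
  have hc : ∀ c : K, (Fin.cons 1 (fun _ : Fin 1 => c) : Fin (1 + 1) → K) = ![1, c] := by
    intro c
    funext i
    fin_cases i <;> rfl
  have e1 : {s : Fin 1 → K | Height.mulHeight (Fin.cons 1 s : Fin (1 + 1) → K) ≤ B ∧
      ¬ ∀ Γ : Finset K, TameArb.PosDens (TameArb.GP (P + C (s 0)) Γ)} =
      (fun (c : K) (_ : Fin 1) => c) '' {c : K | Height.mulHeight ![1, c] ≤ B ∧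
          ¬ ∀ Γ : Finset K, TameArb.PosDens (TameArb.GP (P + C c) Γ)} := by
    ext s
    constructor
    · intro hs
      refine ⟨s 0, ?_, ?_⟩
      · have h2 : s = fun _ => s 0 := by
          funext i
          rw [Subsingleton.elim i 0]
        refine ⟨?_, hs.2⟩
        have h3 := hs.1
        rw [h2, hc] at h3
        exact h3
      · funext i
        rw [Subsingleton.elim i 0]
    · rintro ⟨c, ⟨h2, h3⟩, rfl⟩
      refine ⟨?_, h3⟩
      change Height.mulHeight (Fin.cons 1 (fun _ : Fin 1 => c) : Fin (1 + 1) → K) ≤ B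
      rw [hc]
      exact h2
  have e2 : {s : Fin 1 → K | Height.mulHeight (Fin.cons 1 s : Fin (1 + 1) → K) ≤ B} =
      (fun (c : K) (_ : Fin 1) => c) '' {c : K | Height.mulHeight ![1, c] ≤ B} := by
    ext s
    constructor
    · intro hs
      have h2 : s = fun _ => s 0 := by
        funext i
        rw [Subsingleton.elim i 0]
      refine ⟨s 0, ?_, h2.symm⟩
      have h3 : Height.mulHeight (Fin.cons 1 s : Fin (1 + 1) → K) ≤ B := hs
      rw [h2, hc] at h3
      exact h3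
    · rintro ⟨c, h2, rfl⟩
      change Height.mulHeight (Fin.cons 1 (fun _ : Fin 1 => c) : Fin (1 + 1) → K) ≤ B
      rw [hc]
      exact h2
  rw [e1, e2, Set.ncard_image_of_injective _ hinj, Set.ncard_image_of_injective _ hinj] at h1
  exact h1

end Pool.Agent.PSH
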