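import Mathlib
import Pool.Agent.PLY.Defs
import Pool.Agent.PLY.Fre
import Pool.Agent.TameArb.Down

set_option autoImplicit false

/-!
# From a polynomial to the pair of forms
-/

namespace Pool.Agent.PSH

open NumberField IsDedekindDomain Polynomial
open scoped WithZero
open Pool.Agent.PNH (Tup app mp IsMor)
open Pool.Agent.AAP (fm nv wd SP Periodic Cg)

namespace PairA

section Val

variable {k : Type} [Field k] (v : Valuation k ℤᵐ⁰)

/-- the forms with integral coefficients -/
def IS : Subring (MvPolynomial (Fin 2) k) where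
  carrier := {P | ∀ m, v (P.coeff m) ≤ 1}
  mul_mem' := by
    classical
    intro a b ha hb m
    rw [MvPolynomial.coeff_mul]
    refine Valuation.map_sum_le _ fun x _ => ?_
    rw [map_mul]
    exact mul_le_one' (ha _) (hb _)
  one_mem' := by
    classical
    intro m
    rw [MvPolynomial.coeff_one]
    split_ifs <;> simp
  add_mem' := by
    intro a b ha hb m
    rw [MvPolynomial.coeff_add]
    exact Valuation.map_add_le _ (ha m) (hb m)
  zero_mem' := by
    intro m
    simp
  neg_mem' := by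
    intro a ha m
    rw [MvPolynomial.coeff_neg, Valuation.map_neg]
    exact ha m

variable {v}

theorem c_mem {a : k} (ha : v a ≤ 1) : MvPolynomial.C a ∈ IS v := by
  classical
  intro m
  rw [MvPolynomial.coeff_C]
  split_ifs
  · exact ha
  · simp

theorem x_mem (j : Fin 2) : (MvPolynomial.X j : MvPolynomial (Fin 2) k) ∈ IS v := by
  classical
  intro m
  rw [MvPolynomial.coeff_X']
  split_ifs <;> simp

end Val

section Alg

variable {k : Type} [Field k]

/-- the lower terms -/
noncomputable def lo (a : ℕ → k) (d : ℕ) : MvPolynomial (Fin 2) k :=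
  ∑ i ∈ Finset.range d, MvPolynomial.C (a i) * MvPolynomial.X 0 ^ i *
    MvPolynomial.X 1 ^ (d - 1 - i)

theorem fm_split (a : ℕ → k) (d : ℕ) : (fm fun j : Fin (d + 1) => a j) =
    MvPolynomial.X 1 * lo a d + MvPolynomial.C (a d) * MvPolynomial.X 0 ^ d := by
  unfold fm lo
  rw [Fin.sum_univ_eq_sum_range (fun i => (MvPolynomial.C (a i) * MvPolynomial.X 0 ^ i *
    MvPolynomial.X 1 ^ (d - i) : MvPolynomial (Fin 2) k)) (d + 1), Finset.sum_range_succ,
    Nat.sub_self, pow_zero, mul_one, Finset.mul_sum]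
  refine congrArg₂ (· + ·) (Finset.sum_congr rfl fun i hi => ?_) rfl
  have h1 : d - i = (d - 1 - i) + 1 := by
    have := Finset.mem_range.1 hi
    omega
  rw [h1]
  ring

theorem bez (a : ℕ → k) (d : ℕ) :
    MvPolynomial.C (a d) ^ d * MvPolynomial.X 0 ^ (d * d) =
      (∑ i ∈ Finset.range d, ((fm fun j : Fin (d + 1) => a j) - MvPolynomial.X 1 * lo a d) ^ i *
        (-(MvPolynomial.X 1 * lo a d)) ^ (d - 1 - i)) * (fm fun j : Fin (d + 1) => a j) +
      (-lo a d) ^ d * MvPolynomial.X 1 ^ d := by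
  have h1 := geom_sum₂_mul ((fm fun j : Fin (d + 1) => a j) - MvPolynomial.X 1 * lo a d)
    (-(MvPolynomial.X 1 * lo a d)) d
  have h2 : (fm fun j : Fin (d + 1) => a j) - MvPolynomial.X 1 * lo a d -
      -(MvPolynomial.X 1 * lo a d) = fm fun j : Fin (d + 1) => a j := by ring
  have h3 : (fm fun j : Fin (d + 1) => a j) - MvPolynomial.X 1 * lo a d =
      MvPolynomial.C (a d) * MvPolynomial.X 0 ^ d := by
    rw [fm_split]
    ring
  rw [h2] at h1
  rw [h1, h3, mul_pow, ← pow_mul]
  have h4 : (-(MvPolynomial.X 1 * lo a d)) ^ d = (-lo a d) ^ d * MvPolynomial.X 1 ^ d := by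
    rw [← mul_pow]
    ring
  rw [h4]
  ring

/-- the pair of forms of a polynomial -/
noncomputable def pr (φ : k[X]) : Tup 1 k :=
  ![fm fun j : Fin (φ.natDegree + 1) => φ.coeff j, MvPolynomial.X 1 ^ φ.natDegree]

theorem hom_pr (φ : k[X]) (i : Fin 2) : (pr φ i).IsHomogeneous φ.natDegree := by
  fin_cases i
  · exact AAP.PosA.hom_fm _
  · have h := (MvPolynomial.isHomogeneous_X k (1 : Fin 2)).pow φ.natDegree
    rw [one_mul] at h
    exact h

theorem isMor_pr (φ : k[X]) (hd : 2 ≤ φ.natDegree) : IsMor φ.natDegree k (pr φ) := by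
  refine ⟨hom_pr φ, fun x hx => ?_⟩
  have h0 : MvPolynomial.eval x (MvPolynomial.map (algebraMap k (AlgebraicClosure k))
      (fm fun j : Fin (φ.natDegree + 1) => φ.coeff j)) = 0 := congrFun hx 0
  have h1 : MvPolynomial.eval x (MvPolynomial.map (algebraMap k (AlgebraicClosure k))
      (MvPolynomial.X 1 ^ φ.natDegree)) = 0 := congrFun hx 1
  rw [map_pow, MvPolynomial.map_X, map_pow, MvPolynomial.eval_X] at h1
  have hx1 : x 1 = 0 := pow_eq_zero_iff (by omega) |>.1 h1
  rw [fm_split, map_add, map_mul, map_mul, map_pow, MvPolynomial.map_X, MvPolynomial.map_X,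
    MvPolynomial.map_C, map_add, map_mul, map_mul, map_pow, MvPolynomial.eval_X,
    MvPolynomial.eval_X, MvPolynomial.eval_C, hx1, zero_mul, zero_add] at h0
  have hl : φ.coeff φ.natDegree ≠ 0 := by
    intro h
    have h2 : φ = 0 := leadingCoeff_eq_zero.1 h
    rw [h2, natDegree_zero] at hd
    omega
  rcases mul_eq_zero.1 h0 with h2 | h2
  · exact absurd ((map_eq_zero _).1 h2) hl
  · have hx0 : x 0 = 0 := pow_eq_zero_iff (by omega) |>.1 h2
    funext i
    fin_cases i
    · exact hx0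
    · exact hx1

theorem app_pr (φ : k[X]) (x : k) : app (pr φ) ![x, 1] = ![φ.eval x, 1] := by
  funext i
  fin_cases i
  · change MvPolynomial.eval ![x, 1] (fm fun j : Fin (φ.natDegree + 1) => φ.coeff j) = φ.eval x
    unfold fm
    rw [map_sum, eval_eq_sum_range, ← Fin.sum_univ_eq_sum_range (fun i => φ.coeff i * x ^ i)]
    refine Finset.sum_congr rfl fun i _ => ?_
    simp
  · change MvPolynomial.eval ![x, 1] (MvPolynomial.X 1 ^ φ.natDegree) = 1
    simp

theorem iter_pr (φ : k[X]) (x : k) (n : ℕ) :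
    (app (pr φ))^[n] ![x, 1] = ![(TameArb.ph φ)^[n] x, 1] := by
  induction n with
  | zero => rfl
  | succ n ih =>
    rw [Function.iterate_succ_apply', ih, app_pr, Function.iterate_succ_apply',
      TameArb.ph_eq_eval]

variable {v : Valuation k ℤᵐ⁰}

theorem good_pr {φ : k[X]} (hd : 2 ≤ φ.natDegree) (h : TameArb.Good v φ) :
    AAP.Good v (pr φ) := by
  obtain ⟨hI, hl⟩ := h
  obtain ⟨d, hdd⟩ : ∃ d, d = φ.natDegree := ⟨_, rfl⟩
  have hlo : lo φ.coeff d ∈ IS v := by
    refine Subring.sum_mem _ fun i _ => ?_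
    exact Subring.mul_mem _ (Subring.mul_mem _ (c_mem (hI i)) (Subring.pow_mem _ (x_mem 0) _))
      (Subring.pow_mem _ (x_mem 1) _)
  have hfm : (fm fun j : Fin (d + 1) => φ.coeff j) ∈ IS v :=
    PLY.coeff_le fun j => hI j
  have hinv : v ((φ.coeff d)⁻¹) ≤ 1 := by
    rw [map_inv₀, hdd]
    change (v φ.leadingCoeff)⁻¹ ≤ 1
    rw [hl, inv_one]
  have ha0 : φ.coeff d ≠ 0 := by
    intro h0
    have h2 : v (φ.coeff d) = 1 := by
      rw [hdd]
      exact hl
    rw [h0, map_zero] at h2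
    exact zero_ne_one h2
  have hX : (MvPolynomial.X 1 * lo φ.coeff d : MvPolynomial (Fin 2) k) ∈ IS v :=
    Subring.mul_mem _ (x_mem 1) hlo
  have hb := bez φ.coeff d
  obtain ⟨S, hS⟩ : ∃ S : MvPolynomial (Fin 2) k, S =
    ∑ i ∈ Finset.range d, ((fm fun j : Fin (d + 1) => φ.coeff j) -
      MvPolynomial.X 1 * lo φ.coeff d) ^ i *
        (-(MvPolynomial.X 1 * lo φ.coeff d)) ^ (d - 1 - i) := ⟨_, rfl⟩
  rw [← hS] at hb
  have hSm : S ∈ IS v := by
    rw [hS]
    refine Subring.sum_mem _ fun i _ => ?_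
    exact Subring.mul_mem _ (Subring.pow_mem _ (Subring.sub_mem _ hfm hX) _)
      (Subring.pow_mem _ (Subring.neg_mem _ hX) _)
  have hci : MvPolynomial.C (φ.coeff d)⁻¹ * MvPolynomial.C (φ.coeff d) =
      (1 : MvPolynomial (Fin 2) k) := by
    rw [← MvPolynomial.C_mul, inv_mul_cancel₀ ha0, MvPolynomial.C_1]
  have hCm : (MvPolynomial.C (φ.coeff d)⁻¹ ^ d : MvPolynomial (Fin 2) k) ∈ IS v :=
    Subring.pow_mem _ (c_mem hinv) _
  refine ⟨?_, d * d, ?_⟩
  · intro i m
    fin_cases i
    · exact PLY.coeff_le (fun j => hI j) m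
    · exact (Subring.pow_mem _ (x_mem (v := v) 1) φ.natDegree : _) m
  · intro j
    fin_cases j
    · refine ⟨![MvPolynomial.C (φ.coeff d)⁻¹ ^ d * S,
        MvPolynomial.C (φ.coeff d)⁻¹ ^ d * (-lo φ.coeff d) ^ d], ?_, ?_⟩
      · intro i m
        fin_cases i
        · exact (Subring.mul_mem _ hCm hSm : _) m
        · exact (Subring.mul_mem _ hCm (Subring.pow_mem _ (Subring.neg_mem _ hlo) _) : _) m
      · rw [Fin.sum_univ_two]
        change MvPolynomial.C (φ.coeff d)⁻¹ ^ d * S *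
            (fm fun j : Fin (φ.natDegree + 1) => φ.coeff j) +
          MvPolynomial.C (φ.coeff d)⁻¹ ^ d * (-lo φ.coeff d) ^ d *
            MvPolynomial.X 1 ^ φ.natDegree = MvPolynomial.X 0 ^ (d * d)
        rw [← hdd, mul_assoc, mul_assoc, ← mul_add, ← hb, ← mul_assoc, ← mul_pow, hci, one_pow,
          one_mul]
    · refine ⟨![0, MvPolynomial.X 1 ^ (d * d - d)], ?_, ?_⟩
      · intro i m
        fin_cases i
        · exact (Subring.zero_mem (IS v) : _) m
        · exact (Subring.pow_mem _ (x_mem (v := v) 1) (d * d - d) : _) m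
      · rw [Fin.sum_univ_two]
        change 0 * (fm fun j : Fin (φ.natDegree + 1) => φ.coeff j) +
          MvPolynomial.X 1 ^ (d * d - d) * MvPolynomial.X 1 ^ φ.natDegree =
            MvPolynomial.X 1 ^ (d * d)
        rw [zero_mul, zero_add, ← pow_add, ← hdd]
        have h3 : d ≤ d * d := Nat.le_mul_self d
        rw [Nat.sub_add_cancel h3]

end Alg

end PairA

open PairA in
/-- from the affine language to the language of pairs -/
theorem gd_of_gp {K : Type} [Field K] [NumberField K] (φ : K[X]) (hd : 2 ≤ φ.natDegree)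
    (h : ∀ Γ : Finset K, TameArb.PosDens (TameArb.GP φ Γ)) :
    PLY.Gd φ.natDegree ![AAP.fm fun j : Fin (φ.natDegree + 1) => φ.coeff j,
      MvPolynomial.X 1 ^ φ.natDegree] := by
  classical
  change PLY.Gd φ.natDegree (pr φ)
  refine ⟨isMor_pr φ hd, fun Γ hΓ => ?_⟩
  have h1 := h (Γ.image fun x => x 0 / x 1)
  refine TameArb.PosDens.mono h1 Set.finite_empty ?_
  rw [Set.empty_union]
  rintro v ⟨hg, hv⟩
  refine ⟨good_pr hd hg, fun x hx hp => ?_⟩
  obtain ⟨hx0, hnp⟩ := hΓ x hx
  have hx1 : x 1 ≠ 0 := by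
    intro h0
    apply hnp
    refine ⟨1, one_pos, ?_⟩
    have h2 : app (pr φ) x 1 = 0 := by
      change MvPolynomial.eval x (MvPolynomial.X 1 ^ φ.natDegree) = 0
      rw [map_pow, MvPolynomial.eval_X, h0, zero_pow (by omega)]
    rw [Function.iterate_one]
    unfold wd
    rw [h2, h0, mul_zero, zero_mul, sub_zero]
  obtain ⟨γ, hγ⟩ : ∃ γ, γ = x 0 / x 1 := ⟨_, rfl⟩
  have hx2 : x = x 1 • ![γ, 1] := by
    funext i
    fin_cases i
    · change x 0 = x 1 * γ
      rw [hγ]
      field_simp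
    · change x 1 = x 1 * 1
      rw [mul_one]
  obtain ⟨hγ1, hγ2⟩ := hv γ (by
    rw [hγ]
    exact Finset.mem_image_of_mem _ hx)
  apply hγ2
  obtain ⟨n, hn, hc⟩ := hp
  refine ⟨n, hn, ?_⟩
  have hi : v.valuation K ((TameArb.ph φ)^[n] γ) ≤ 1 := by
    have hall : ∀ m : ℕ, v.valuation K ((TameArb.ph φ)^[m] γ) ≤ 1 := by
      intro m
      induction m with
      | zero => exact hγ1
      | succ m ih =>
        rw [Function.iterate_succ_apply', TameArb.ph_eq_eval]
        exact TameArb.eval_le hg.1 ih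
    exact hall n
  unfold Cg at hc
  rw [hx2, AAP.iter_smul (hom_pr φ), AAP.wd_smul_left, AAP.wd_smul_right, AAP.nv_smul,
    AAP.nv_smul, iter_pr, map_mul, map_mul] at hc
  have hn1 : nv (v.valuation K) ![(TameArb.ph φ)^[n] γ, 1] = 1 := by
    unfold nv
    change max (v.valuation K ((TameArb.ph φ)^[n] γ)) (v.valuation K 1) = 1
    rw [map_one, max_eq_right hi]
  have hn2 : nv (v.valuation K) ![γ, 1] = 1 := by
    unfold nv
    change max (v.valuation K γ) (v.valuation K 1) = 1
    rw [map_one, max_eq_right hγ1]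
  have hw : wd ![(TameArb.ph φ)^[n] γ, 1] ![γ, 1] = (TameArb.ph φ)^[n] γ - γ := by
    unfold wd
    change (TameArb.ph φ)^[n] γ * 1 - 1 * γ = _
    ring
  rw [hn1, hn2, hw, mul_one, mul_one] at hc
  have hv1 : v.valuation K (x 1) ≠ 0 := (Valuation.ne_zero_iff _).2 hx1
  have hpos : 0 < v.valuation K (x 1 ^ φ.natDegree ^ n) * v.valuation K (x 1) := by
    refine zero_lt_iff.2 (mul_ne_zero ?_ hv1)
    rw [map_pow]
    exact pow_ne_zero _ hv1
  have hc2 : v.valuation K (x 1 ^ φ.natDegree ^ n) * v.valuation K (x 1) *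
      v.valuation K ((TameArb.ph φ)^[n] γ - γ) <
        v.valuation K (x 1 ^ φ.natDegree ^ n) * v.valuation K (x 1) * 1 := by
    rw [mul_one, mul_assoc]
    exact hc
  exact (mul_lt_mul_iff_right₀ hpos).1 hc2

end Pool.Agent.PSH
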